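import Pool.Agent.Lib.MP_18f39a_lc.Ls.St

set_option autoImplicit false

open Set Topology Filter MeasureTheory

namespace Pool.Agent.Lib.MP_18f39a_lc.Ls

open Pool.Agent.Lib.MP_18f39a_lc

variable (ev : ℕ → C → C)

theorem bse_bit {X : Type} [TopologicalSpace X] {f : X → C} {x : X} (hf : ContinuousAt f x)
    (N : ℕ) : ∀ᶠ x' in 𝓝 x, ∀ n < N, f x' n = f x n :=
  (eventually_all_finite (finite_lt_nat N)).2 fun n _ =>
    ((continuous_apply n).continuousAt.comp hf) ((isOpen_discrete {f x n}).mem_nhds rfl)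

theorem bse_act (j a : ℕ) (x : C) :
    ∀ᶠ x' in 𝓝 x, (act j a (dc (snd x')) ↔ act j a (dc (snd x))) := by
  have hf : Continuous fun (x : C) (l : ℕ) => dc (snd x) (1, pos j a l) :=
    continuous_pi fun l => continuous_apply _
  filter_upwards [bse_bit hf.continuousAt (j + 1)] with x' hx'
  exact forall₂_congr fun l hl => by rw [hx' l (Nat.lt_succ_of_le hl)]

theorem bse_pre_le {b b' : C} {s t : ℕ} (h : pre b t = pre b' t) (hs : s ≤ t) :
    pre b s = pre b' s :=
  pre_eq_iff.2 fun i hi => pre_eq_iff.1 h i (lt_of_lt_of_le hi hs)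

theorem bse_cst {b b' : C} {j a s : ℕ} (hs : Q ev b j a s) (h : pre b (s + a) = pre b' (s + a))
    (l : ℕ) (hc : cst ev b j a l) : cst ev b' j a l := by
  classical
  obtain ⟨h1, h2, h3⟩ := hc
  have hle : Nat.find h2 ≤ s := Nat.find_min' h2 hs
  have hQ : ∀ t ≤ s, (Q ev b j a t ↔ Q ev b' j a t) := fun t ht =>
    Q_congr ev (bse_pre_le h (by omega)) j a
  have h2' : ∃ s, Q ev b' j a s := ⟨s, (hQ s le_rfl).1 hs⟩
  have e : Nat.find h2' = Nat.find h2 := (Nat.find_eq_iff h2').2
    ⟨(hQ _ hle).1 (Nat.find_spec h2), fun t ht hq =>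
      Nat.find_min h2 ht ((hQ t (by omega)).2 hq)⟩
  refine ⟨by rw [← st_congr ev (bse_pre_le h (Nat.le_add_left a s)) j, h1], h2', ?_⟩
  rw [e, ← bse_pre_le h (hle.trans (Nat.le_add_right s a))]
  exact h3

/-- On the set of `x` with a given finite set of active failing stages the third part is a
continuous function of `x`. -/
theorem continuousOn_hh (F : Finset (ℕ × ℕ)) :
    ContinuousOn (fun x : C => hh ev (fst x) (dc (snd x)))
      {x | ∀ p : ℕ × ℕ, (Fail ev (fst x) p.1 p.2 ∧ act p.1 p.2 (dc (snd x))) ↔ p ∈ F} := by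
  refine continuousOn_pi.2 fun n x hx => ?_
  refine (continuousWithinAt_const (b := hh ev (fst x) (dc (snd x)) n)).congr_of_eventuallyEq
    (eventually_nhdsWithin_iff.2 ?_) rfl
  simp only [hh, decide_eq_decide]
  generalize n.unpair.1 = j
  generalize n.unpair.2.unpair.1 = a
  generalize n.unpair.2.unpair.2 = l
  have hp : ∀ m, ∀ᶠ x' in 𝓝 x, pre (fst x') m = pre (fst x) m := fun m =>
    (bse_bit continuous_fst'.continuousAt m).mono fun x' hx' => pre_eq_iff.2 hx'
  by_cases hQ : ∃ s, Q ev (fst x) j a s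
  · obtain ⟨s, hs⟩ := hQ
    filter_upwards [bse_act j a x, hp (s + a)] with x' h1 h2 _
    have hs' : Q ev (fst x') j a s :=
      (Q_congr ev (bse_pre_le h2 (Nat.le_add_right s a)) j a).2 hs
    exact and_congr h1 ⟨bse_cst ev hs' h2 l, bse_cst ev hs h2.symm l⟩
  · filter_upwards [bse_act j a x, hp a] with x' h1 h2 hx'
    refine ⟨fun hc => ?_, fun hc => absurd hc.2.2.1 hQ⟩
    have hF : (j, a) ∈ F := (hx (j, a)).1
      ⟨⟨by rw [← st_congr ev h2 j]; exact hc.2.1, fun s hs => hQ ⟨s, hs⟩⟩, h1.1 hc.1⟩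
    obtain ⟨s, hs⟩ := hc.2.2.1
    exact absurd hs (((hx' (j, a)).2 hF).1.2 s)

theorem bse_join {ι : Type} [Countable ι] (y : ι → C) : ∃ c : C, ∀ i, Red (y i) c := by
  obtain ⟨f, hf⟩ := exists_injective_nat ι
  refine ⟨psi (Function.extend f y fun _ _ => false), fun i => ?_⟩
  have := red_psi (Function.extend f y fun _ _ => false) (f i)
  rwa [hf.extend_apply] at this

/-- `exists_code`, `exists_code'`, `red_psi`. -/
theorem base : ∃ c : C, ∀ b, Red c b → (∀ g R, Red (xx b (T g R)) (xx b R)) ∧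
    ∀ R, {p : ℕ × ℕ | Fail ev b p.1 p.2 ∧ act p.1 p.2 R}.Finite → Red (yy ev b R) (xx b R) := by
  have h1 : ∀ g : G, Continuous fun x : C => join (fst x) (cd (T g (dc (snd x)))) := fun g =>
    Continuous.join' continuous_fst'
      (continuous_cd.comp ((continuous_T g).comp (continuous_dc.comp continuous_snd')))
  choose c1 hc1 using fun g => exists_code' (h1 g)
  choose c2 hc2 using fun F => exists_code (continuousOn_hh ev F)
  obtain ⟨d1, hd1⟩ := bse_join c1
  obtain ⟨d2, hd2⟩ := bse_join c2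
  refine ⟨join d1 d2, fun b hb => ⟨fun g R => ?_, fun R hR => ?_⟩⟩
  · have := hc1 g (xx b R) ((hd1 g).trans ((red_left d1 d2).trans (hb.trans (red_left _ _))))
    simpa only [xx, fst_join, snd_join, dc_cd] using this
  · have := hc2 hR.toFinset (xx b R) (fun p => by
      simp only [xx, fst_join, snd_join, dc_cd, Finite.mem_toFinset]
      rfl) ((hd2 _).trans ((red_right d1 d2).trans (hb.trans (red_left _ _))))
    refine Red.join (Red.refl _) ?_
    simpa only [xx, fst_join, snd_join, dc_cd] using this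

end Pool.Agent.Lib.MP_18f39a_lc.Ls
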