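import Pool.Agent.Lib.MP_18f39a_lc.Branch

set_option autoImplicit false

open Set Topology Filter MeasureTheory

namespace Pool.Agent.Lib.MP_18f39a_lc.Ls

open Pool.Agent.Lib.MP_18f39a_lc

/-- The free group on two generators. -/
abbrev G := FreeGroup Bool

/-- Fair coins indexed by `G × ℕ`. -/
abbrev Om := G × ℕ → Bool

noncomputable def coin : Measure Bool := (PMF.uniformOfFintype Bool).toMeasure

instance : IsProbabilityMeasure coin := by
  unfold coin
  infer_instance

theorem coin_single (v : Bool) : coin {v} = 2⁻¹ := by
  rw [coin, PMF.toMeasure_apply_singleton _ _ (measurableSet_singleton v)]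
  simp

noncomputable def mu : Measure Om := Measure.infinitePi fun _ => coin

instance : IsProbabilityMeasure mu := by
  unfold mu
  infer_instance

/-- The shift action. -/
def T (g : G) (R : Om) : Om := fun p => R (p.1 * g, p.2)

theorem T_T (g h : G) (R : Om) : T g (T h R) = T (g * h) R := by
  funext p
  simp [T, mul_assoc]

theorem T_one (R : Om) : T 1 R = R := by
  funext p
  simp [T]

theorem continuous_T (g : G) : Continuous (T g) := continuous_pi fun _ => continuous_apply _

theorem measurable_T (g : G) : Measurable (T g) :=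
  measurable_pi_lambda _ fun _ => measurable_pi_apply _

noncomputable def io : G × ℕ ≃ ℕ :=
  (nonempty_equiv_of_countable (α := G × ℕ) (β := ℕ)).some

noncomputable def cd (R : Om) : C := fun n => R (io.symm n)

noncomputable def dc (z : C) : Om := fun p => z (io p)

theorem dc_cd (R : Om) : dc (cd R) = R := by
  funext p
  simp [dc, cd]

theorem continuous_cd : Continuous cd := continuous_pi fun _ => continuous_apply _

theorem continuous_dc : Continuous dc := continuous_pi fun _ => continuous_apply _

/-- The base together with the coins. -/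
noncomputable def xx (b : C) (R : Om) : C := join b (cd R)

theorem continuous_xx (b : C) : Continuous (xx b) :=
  Continuous.join' continuous_const continuous_cd

/-- `D` depends only on the coordinates in `I`. -/
def DepOn (I : Finset (G × ℕ)) (D : Set Om) : Prop :=
  ∀ R R' : Om, (∀ i ∈ I, R i = R' i) → R ∈ D → R' ∈ D

def pos (j a l : ℕ) : ℕ := Nat.pair j (Nat.pair a l)

/-- The root is active at stage `a` of strategy `j`. -/
def act (j a : ℕ) (R : Om) : Prop := ∀ l ≤ j, R (1, pos j a l) = false

/-- The coins read by `act j a (T g R)` for `g ∈ F`. -/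
noncomputable def blk (F : Finset G) (j a : ℕ) : Finset (G × ℕ) :=
  F ×ˢ (Finset.range (j + 1)).image (pos j a)

/-- The first `s` bits of `x` decide the first `N` values of `f`. -/
def Cv (f : C → C) (s N : ℕ) (x : C) : Prop :=
  ∀ n < N, ∀ x', pre x' s = pre x s → f x' n = f x n

def Bs (f : C → C) (b : C) (s N : ℕ) : Set Om := {R | Cv f s N (xx b R)}

def LL (a : ℕ) : ℕ := (a + 1) ^ 2

/-- The input of the list that asks for bit `pos j a l` of the third part of column `k`. -/
def inp (k j a l : ℕ) : ℕ := Nat.pair k (2 * pos j a l + 1)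

def Nn (j a : ℕ) : ℕ :=
  ((Finset.range (a + 1) ×ˢ Finset.range (LL a)).sup fun p => inp p.1 j a p.2) + a + 1

noncomputable def qq (j : ℕ) : ℝ := ((Denumerable.ofNat ℚ j.unpair.2 : ℚ) : ℝ)

variable (ev : ℕ → C → C)

/-- At time `s` the wait of stage `a` of strategy `j` is over. -/
def Q (b : C) (j a s : ℕ) : Prop := qq j < mu.real (Bs (ev j.unpair.1) b s (Nn j a))

/-- Some column `k ≤ a` shows the pattern `β` on block `(j, a)`. -/
def Gs (b : C) (j a β : ℕ) : Set Om :=
  {R | ∃ k ≤ a, ∀ l < LL a, ev j.unpair.1 (xx b R) (inp k j a l) = decide (l = β)}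

open Classical in
noncomputable def bet (ρ : List Bool) (j a : ℕ) : ℕ :=
  if h : ∃ β, mu.real (Gs ev (ext ρ) j a β) ≤ 1 / (a + 1 : ℝ) then h.choose else 0

open Classical in
/-- The stage of strategy `j` that is armed at time `t`. -/
noncomputable def st (b : C) (j : ℕ) : ℕ → ℕ
  | 0 => 0
  | t + 1 => if Q ev b j (st b j t) t then t + 1 else st b j t

/-- An armed stage whose wait never ends. -/
def Fail (b : C) (j a : ℕ) : Prop := st ev b j a = a ∧ ∀ s, ¬ Q ev b j a s

open Classical in
def cst (b : C) (j a l : ℕ) : Prop :=
  st ev b j a = a ∧ ∃ h : ∃ s, Q ev b j a s, l = bet ev (pre b (Nat.find h)) j a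

open Classical in
noncomputable def hh (b : C) (R : Om) : C := fun n =>
  decide (act n.unpair.1 n.unpair.2.unpair.1 R ∧
    cst ev b n.unpair.1 n.unpair.2.unpair.1 n.unpair.2.unpair.2)

/-- The real attached to the root. -/
noncomputable def yy (b : C) (R : Om) : C := join (xx b R) (hh ev b R)

/-- The first `s` bits decide, for every length. -/
def Tt (f : C → C) (b : C) : Set Om := {R | ∀ N, ∃ s, Cv f s N (xx b R)}

/-- The vertices whose real is a column of `f (xx b R)`. -/
def Lis (f : C → C) (b : C) (R : Om) : Set G := {g | ∃ k, col k (f (xx b R)) = yy ev b (T g R)}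

end Pool.Agent.Lib.MP_18f39a_lc.Ls
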