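import Pool.Agent.Lib.MP_18f39a_lc.Ls.St

set_option autoImplicit false

open Set Topology Filter MeasureTheory

namespace Pool.Agent.Lib.MP_18f39a_lc.Ls

open Pool.Agent.Lib.MP_18f39a_lc

variable (ev : ℕ → C → C)

def Cn (f : C → C) (b : C) (N : ℕ) : Set Om := ⋃ s, Bs f b s N

theorem meas_Cn (f : C → C) (b : C) (N : ℕ) : MeasurableSet (Cn f b N) :=
  MeasurableSet.iUnion fun s => meas_Bs f b s N

theorem Tt_eq (f : C → C) (b : C) : Tt f b = ⋂ N, Cn f b N := by
  ext R
  simp [Tt, Cn, Bs]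

theorem meas_Tt (f : C → C) (b : C) : MeasurableSet (Tt f b) := by
  rw [Tt_eq]
  exact MeasurableSet.iInter fun N => meas_Cn f b N

theorem tend_Bs (f : C → C) (b : C) (N : ℕ) :
    Tendsto (fun s => mu.real (Bs f b s N)) atTop (𝓝 (mu.real (Cn f b N))) :=
  (ENNReal.tendsto_toReal (measure_ne_top mu _)).comp
    (tendsto_measure_iUnion_atTop fun _ _ h _ hR => Cv.mono hR h le_rfl)

theorem tend_Cn (f : C → C) (b : C) :
    Tendsto (fun N => mu.real (Cn f b N)) atTop (𝓝 (mu.real (Tt f b))) := by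
  rw [Tt_eq]
  refine (ENNReal.tendsto_toReal (measure_ne_top mu _)).comp
    (tendsto_measure_iInter_atTop (fun N => (meas_Cn f b N).nullMeasurableSet) ?_
      ⟨0, measure_ne_top mu _⟩)
  intro N N' h R hR
  obtain ⟨s, hs⟩ := mem_iUnion.1 hR
  exact mem_iUnion.2 ⟨s, Cv.mono hs le_rfl h⟩

theorem Tt_sub (f : C → C) (b : C) (N : ℕ) : Tt f b ⊆ Cn f b N := by
  rw [Tt_eq]
  exact iInter_subset _ N

theorem ev_Q {b : C} {j : ℕ} (h : qq j < mu.real (Tt (ev j.unpair.1) b)) (a : ℕ) :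
    ∀ᶠ s in atTop, Q ev b j a s :=
  (tend_Bs _ b (Nn j a)).eventually
    (lt_mem_nhds (h.trans_le (measureReal_mono (Tt_sub _ b _))))

theorem exists_bet (hm : ∀ e, Measurable (ev e)) (b : C) (j a : ℕ) :
    ∃ β, mu.real (Gs ev b j a β) ≤ 1 / (a + 1 : ℝ) := by
  classical
  let P : ℕ → ℕ → Set Om := fun k β =>
    {R | ∀ l < LL a, ev j.unpair.1 (xx b R) (inp k j a l) = decide (l = β)}
  have hP : ∀ k β, MeasurableSet (P k β) := fun k β => by
    have : P k β = ⋂ l, ⋂ _ : l < LL a,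
        (fun R => ev j.unpair.1 (xx b R) (inp k j a l)) ⁻¹' {decide (l = β)} := by
      ext R
      simp [P]
    rw [this]
    exact MeasurableSet.iInter fun l => MeasurableSet.iInter fun _ =>
      ((measurable_pi_apply _).comp ((hm _).comp (continuous_xx b).measurable))
        (measurableSet_singleton _)
  have h1 : ∀ k, ∑ β ∈ Finset.range (LL a), mu.real (P k β) ≤ 1 := fun k => by
    rw [← measureReal_biUnion_finset _ (fun β _ => hP k β)]
    · exact measureReal_le_one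
    · intro β hβ β' _ hne
      refine Set.disjoint_left.2 fun R h h' => hne ?_
      have hb : β < LL a := by simpa using hβ
      have := (h β hb).symm.trans (h' β hb)
      simpa using this
  have h2 : ∀ β, mu.real (Gs ev b j a β) ≤ ∑ k ∈ Finset.range (a + 1), mu.real (P k β) :=
    fun β => by
      refine le_trans (measureReal_mono ?_ (measure_ne_top mu _)) (measureReal_biUnion_finset_le _ _)
      rintro R ⟨k, hk, hR⟩
      exact mem_biUnion (Finset.mem_coe.2 (Finset.mem_range.2 (Nat.lt_succ_of_le hk))) hR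
  have h3 : ∑ β ∈ Finset.range (LL a), mu.real (Gs ev b j a β) ≤
      ∑ _β ∈ Finset.range (LL a), 1 / (a + 1 : ℝ) := by
    refine (Finset.sum_le_sum fun β _ => h2 β).trans ?_
    rw [Finset.sum_comm]
    refine (Finset.sum_le_sum fun k _ => h1 k).trans (le_of_eq ?_)
    simp only [Finset.sum_const, Finset.card_range, nsmul_eq_mul, LL]
    push_cast
    field_simp
  obtain ⟨β, -, hβ⟩ := Finset.exists_le_of_sum_le
    ⟨0, Finset.mem_range.2 (by simp [LL])⟩ h3
  exact ⟨β, hβ⟩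

theorem bet_spec (hm : ∀ e, Measurable (ev e)) (ρ : List Bool) (j a : ℕ) :
    mu.real (Gs ev (ext ρ) j a (bet ev ρ j a)) ≤ 1 / (a + 1 : ℝ) := by
  have h := exists_bet ev hm (ext ρ) j a
  simp only [bet, dif_pos h]
  exact h.choose_spec

theorem inp_lt {k j a l : ℕ} (hk : k ≤ a) (hl : l < LL a) : inp k j a l < Nn j a := by
  have := Finset.le_sup (f := fun p : ℕ × ℕ => inp p.1 j a p.2)
    (show (k, l) ∈ Finset.range (a + 1) ×ˢ Finset.range (LL a) by
      simp only [Finset.mem_product, Finset.mem_range]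
      exact ⟨by omega, hl⟩)
  simp only at this
  unfold Nn
  omega

theorem le_Nn (j a : ℕ) : a ≤ Nn j a := by
  unfold Nn
  omega

open Classical in
/-- An active listed vertex forces the chosen pattern. -/
theorem hit {b : C} {j a : ℕ} (ha : st ev b j a = a) (h : ∃ s, Q ev b j a s) {R : Om} {g : G}
    {k : ℕ} (hk : k ≤ a) (hc : col k (ev j.unpair.1 (xx b R)) = yy ev b (T g R))
    (hact : act j a (T g R)) (hB : R ∈ Bs (ev j.unpair.1) b (Nat.find h) (Nn j a)) :
    R ∈ Gs ev (ext (pre b (Nat.find h))) j a (bet ev (pre b (Nat.find h)) j a) := by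
  refine ⟨k, hk, fun l hl => ?_⟩
  have e0 : pre (ext (pre b (Nat.find h))) (Nat.find h) = pre b (Nat.find h) :=
    pre_eq_iff.2 fun i hi => ext_pre b hi
  rw [hB _ (inp_lt hk hl) _ (pre_xx e0 R)]
  have e1 := congrFun hc (2 * pos j a l + 1)
  have e2 : (2 * pos j a l + 1) % 2 = 1 := by omega
  have e3 : (2 * pos j a l + 1) / 2 = pos j a l := by omega
  simp only [col, yy, join, e2, e3, one_ne_zero, if_false] at e1
  rw [inp, e1]
  simp only [hh, pos, Nat.unpair_pair, hact, true_and, cst, ha, h, exists_true_left]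

theorem cover (P : ℕ → Set Om) (hP : ∀ i, MeasurableSet (P i)) (F : ℕ → Finset G) {m : ℕ}
    (hF : ∀ i, (F i).card = m) (j n : ℕ) {ε : ℝ} (hε : 0 < ε) :
    ∃ a0, ∀ a, a0 ≤ a →
      mu.real {R | R ∈ ⋃ i ∈ Finset.range n, P i ∧ ∀ i < n, R ∈ P i → R ∈ NoAct (F i) j a} ≤
        mu.real (⋃ i ∈ Finset.range n, P i) * (1 - (1 / 2 : ℝ) ^ (j + 1)) ^ m + ε := by
  induction n generalizing ε with
  | zero => exact ⟨0, fun a _ => by simpa using hε.le⟩
  | succ n ih =>
    have hU : MeasurableSet (⋃ i ∈ Finset.range n, P i) :=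
      Finset.measurableSet_biUnion _ fun i _ => hP i
    obtain ⟨a1, h1⟩ := ih (half_pos hε)
    obtain ⟨a2, h2⟩ := mix_noAct ((hP n).diff hU) (F n) j (half_pos hε)
    refine ⟨max a1 a2, fun a ha => ?_⟩
    have e : (⋃ i ∈ Finset.range (n + 1), P i) =
        (⋃ i ∈ Finset.range n, P i) ∪ (P n \ ⋃ i ∈ Finset.range n, P i) := by
      rw [Finset.range_add_one, Finset.set_biUnion_insert, union_sdiff_self, union_comm]
    have e' : mu.real (⋃ i ∈ Finset.range (n + 1), P i) =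
        mu.real (⋃ i ∈ Finset.range n, P i) + mu.real (P n \ ⋃ i ∈ Finset.range n, P i) := by
      rw [e, measureReal_union disjoint_sdiff_right ((hP n).diff hU) (measure_ne_top mu _)
        (measure_ne_top mu _)]
    have h3 := h1 a (le_of_max_le_left ha)
    have h4 := h2 a (le_of_max_le_right ha)
    rw [hF n] at h4
    have h5 : {R | R ∈ ⋃ i ∈ Finset.range (n + 1), P i ∧
          ∀ i < n + 1, R ∈ P i → R ∈ NoAct (F i) j a} ⊆
        {R | R ∈ ⋃ i ∈ Finset.range n, P i ∧ ∀ i < n, R ∈ P i → R ∈ NoAct (F i) j a} ∪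
          ((P n \ ⋃ i ∈ Finset.range n, P i) ∩ NoAct (F n) j a) := by
      rintro R ⟨hR, hN⟩
      rw [e] at hR
      rcases hR with hR | hR
      · exact Or.inl ⟨hR, fun i hi => hN i (by omega)⟩
      · exact Or.inr ⟨hR, hN n (by omega) hR.1⟩
    have h6 := (measureReal_mono h5 (measure_ne_top mu _)).trans (measureReal_union_le (μ := mu) _ _)
    rw [e']
    linarith

/-- Almost surely a total list shows the reals of finitely many vertices only. -/
theorem diag (hm : ∀ e, Measurable (ev e)) (b : C) (e : ℕ) :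
    mu {R | R ∈ Tt (ev e) b ∧ (Lis ev (ev e) b R).Infinite} = 0 := by
  classical
  by_contra hne
  set A := {R | R ∈ Tt (ev e) b ∧ (Lis ev (ev e) b R).Infinite} with hA
  have hθ : 0 < mu.real A := ENNReal.toReal_pos hne (measure_ne_top mu _)
  set θ := mu.real A with hθe
  set τ := mu.real (Tt (ev e) b) with hτ
  obtain ⟨q, hq1, hq2⟩ := exists_rat_btwn (show τ - θ / 8 < τ by linarith)
  obtain ⟨c, hc⟩ := (Denumerable.eqv ℚ).symm.surjective q
  obtain ⟨j, hje, hjq⟩ : ∃ j : ℕ, j.unpair.1 = e ∧ qq j = q :=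
    ⟨Nat.pair e c, by simp, by
      simp only [qq, Nat.unpair_pair]
      exact congrArg _ hc⟩
  have hQ : ∀ a, ∀ᶠ s in atTop, Q ev b j a s := ev_Q ev (by rw [hje, hjq]; exact hq2)
  have hr0 : (0 : ℝ) ≤ 1 - (1 / 2 : ℝ) ^ (j + 1) :=
    sub_nonneg.2 (pow_le_one₀ (by norm_num) (by norm_num))
  have hr1 : 1 - (1 / 2 : ℝ) ^ (j + 1) < 1 := sub_lt_self _ (by positivity)
  obtain ⟨m, hm4⟩ := exists_pow_lt_of_lt_one (show (0 : ℝ) < 1 / 4 by norm_num) hr1
  obtain ⟨F0, hF0⟩ := Infinite.exists_subset_card_eq G m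
  have : Nonempty ({F : Finset G // F.card = m} × ℕ) := ⟨(⟨F0, hF0⟩, 0)⟩
  obtain ⟨u, hu⟩ := exists_surjective_nat ({F : Finset G // F.card = m} × ℕ)
  let P : ℕ → Set Om := fun i => {R | R ∈ Tt (ev e) b ∧
    ∀ g ∈ (u i).1.1, ∃ k ≤ (u i).2, col k (ev e (xx b R)) = yy ev b (T g R)}
  have hP : ∀ i, MeasurableSet (P i) := fun i => by
    have : P i = Tt (ev e) b ∩ ⋂ g ∈ (u i).1.1, ⋃ k, ⋃ _ : k ≤ (u i).2,
        {R | col k (ev e (xx b R)) = yy ev b (T g R)} := by
      ext R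
      simp [P]
    rw [this]
    refine (meas_Tt _ b).inter (Finset.measurableSet_biInter _ fun g _ =>
      MeasurableSet.iUnion fun k => MeasurableSet.iUnion fun _ => ?_)
    refine measurableSet_eq_fun ?_ ((continuous_yy ev b).measurable.comp (measurable_T g))
    exact measurable_pi_lambda _ fun n =>
      (measurable_pi_apply _).comp ((hm e).comp (continuous_xx b).measurable)
  have hAP : A ⊆ ⋃ n, ⋃ i ∈ Finset.range n, P i := by
    rintro R ⟨h1, h2⟩
    obtain ⟨F, hF, hc⟩ := h2.exists_subset_card_eq m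
    choose! κ hκ using fun g (hg : g ∈ F) => hF (Finset.mem_coe.2 hg)
    obtain ⟨i, hi⟩ := hu (⟨F, hc⟩, F.sup κ)
    refine mem_iUnion.2 ⟨i + 1, mem_biUnion (Finset.mem_coe.2 (Finset.self_mem_range_succ i))
      ⟨h1, ?_⟩⟩
    rw [hi]
    exact fun g hg => ⟨κ g, Finset.le_sup hg, hκ g hg⟩
  have hten : Tendsto (fun n => mu.real (⋃ i ∈ Finset.range n, P i)) atTop
      (𝓝 (mu.real (⋃ n, ⋃ i ∈ Finset.range n, P i))) :=
    (ENNReal.tendsto_toReal (measure_ne_top mu _)).comp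
      (tendsto_measure_iUnion_atTop fun n n' h =>
        biUnion_subset_biUnion_left (Finset.coe_subset.2 (Finset.range_subset_range.2 h)))
  obtain ⟨n, hn⟩ := (hten.eventually (lt_mem_nhds
    (show 3 * θ / 4 < _ from lt_of_lt_of_le (by linarith) (measureReal_mono hAP (measure_ne_top mu _))))).exists
  obtain ⟨a0, ha0⟩ := cover P hP (fun i => (u i).1.1) (fun i => (u i).1.2) j n
    (show 0 < θ / 16 by linarith)
  obtain ⟨a1, ha1⟩ := eventually_atTop.1 ((tend_Cn (ev e) b).eventually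
    (gt_mem_nhds (show τ < τ + θ / 8 by linarith)))
  obtain ⟨a2, ha2⟩ := exists_nat_one_div_lt (show 0 < θ / 16 by linarith)
  obtain ⟨a, ha, hst⟩ := arm_inf ev hQ
    (a0 + a1 + a2 + (Finset.range n).sup fun i => (u i).2)
  have h : ∃ s, Q ev b j a s := (hQ a).exists
  have hB : (q : ℝ) < mu.real (Bs (ev e) b (Nat.find h) (Nn j a)) := by
    have := Nat.find_spec h
    rwa [Q, hje, hjq] at this
  have hC := ha1 (Nn j a) (le_trans (by omega) (le_Nn j a))
  have hsub : Bs (ev e) b (Nat.find h) (Nn j a) ⊆ Cn (ev e) b (Nn j a) :=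
    subset_iUnion (fun s => Bs (ev e) b s (Nn j a)) _
  have hD : mu.real (Cn (ev e) b (Nn j a) \ Bs (ev e) b (Nat.find h) (Nn j a)) ≤ θ / 4 := by
    rw [measureReal_sdiff hsub (meas_Bs _ _ _ _) (measure_ne_top mu _)]
    linarith
  have hG := bet_spec ev hm (pre b (Nat.find h)) j a
  have hG' : 1 / (a + 1 : ℝ) ≤ 1 / (a2 + 1 : ℝ) := by
    have : (a2 : ℝ) ≤ a := by exact_mod_cast (show a2 ≤ a by omega)
    gcongr
  have hS := ha0 a (by omega)
  have hcov : (⋃ i ∈ Finset.range n, P i) ⊆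
      ({R | R ∈ ⋃ i ∈ Finset.range n, P i ∧ ∀ i < n, R ∈ P i → R ∈ NoAct (u i).1.1 j a} ∪
        (Cn (ev e) b (Nn j a) \ Bs (ev e) b (Nat.find h) (Nn j a))) ∪
        Gs ev (ext (pre b (Nat.find h))) j a (bet ev (pre b (Nat.find h)) j a) := by
    intro R hR
    by_cases h1 : ∀ i < n, R ∈ P i → R ∈ NoAct (u i).1.1 j a
    · exact Or.inl (Or.inl ⟨hR, h1⟩)
    · simp only [NoAct, mem_ofPred_eq, not_forall, not_not] at h1
      obtain ⟨i, hi, hRi, g, hg, hact⟩ := h1
      by_cases h2 : R ∈ Bs (ev e) b (Nat.find h) (Nn j a)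
      · obtain ⟨k, hk, hc⟩ := hRi.2 g hg
        have hk' : (u i).2 ≤ (Finset.range n).sup fun i => (u i).2 :=
          Finset.le_sup (f := fun i => (u i).2) (Finset.mem_range.2 hi)
        exact Or.inr (hit ev hst h (k := k) (by omega) (by rw [hje]; exact hc) hact
          (by rw [hje]; exact h2))
      · exact Or.inl (Or.inr ⟨Tt_sub _ b _ hRi.1, h2⟩)
  have h6 := (measureReal_mono hcov (measure_ne_top mu _)).trans (measureReal_union_le (μ := mu) _ _)
  have h7 := measureReal_union_le (μ := mu)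
    {R | R ∈ ⋃ i ∈ Finset.range n, P i ∧ ∀ i < n, R ∈ P i → R ∈ NoAct (u i).1.1 j a}
    (Cn (ev e) b (Nn j a) \ Bs (ev e) b (Nat.find h) (Nn j a))
  have h8 : mu.real (⋃ i ∈ Finset.range n, P i) * (1 - (1 / 2 : ℝ) ^ (j + 1)) ^ m ≤
      mu.real (⋃ i ∈ Finset.range n, P i) * (1 / 4) :=
    mul_le_mul_of_nonneg_left hm4.le measureReal_nonneg
  linarith

end Pool.Agent.Lib.MP_18f39a_lc.Ls
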