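import Pool.Agent.Lib.MP_18f39a_lc.Ls.Mt
import Pool.Agent.Lib.MP_18f39a_lc.Ls.Bse
import Pool.Agent.Lib.MP_18f39a_lc.Ls.Dg

set_option autoImplicit false

open Set Topology Filter MeasureTheory

namespace Pool.Agent.Lib.MP_18f39a_lc.Ls

open Pool.Agent.Lib.MP_18f39a_lc

/-- The `E`-class of `x` is contained in a list computable from `x`. -/
def Lst (E : C → C → Prop) (x : C) : Prop := ∃ w, Red w x ∧ ∀ y, E x y → ∃ k, col k w = y

theorem fin_tt {f : C → C} {b : C} {R : Om} (hf : ContinuousAt f (xx b R)) : R ∈ Tt f b :=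
  fun N => exists_pre_of_mem_nhds (bse_bit hf N) |>.imp fun _ hs n hn x' hx' => hs x' hx' n hn

variable (ev : ℕ → C → C)

/-- The expected number of edges at the root that `E` keeps. -/
noncomputable def Wt (b : C) (E : C → C → Prop) : ENNReal :=
  ∑ s : Bool × Bool, mu {R | E (yy ev b (T (FreeGroup.mk [s]) R)) (yy ev b R)}

/-- The base `b` computes the codes of the construction. -/
def Gd (b : C) : Prop := (∀ g R, Red (xx b (T g R)) (xx b R)) ∧
  ∀ R, {p : ℕ × ℕ | Fail ev b p.1 p.2 ∧ act p.1 p.2 R}.Finite → Red (yy ev b R) (xx b R)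

/-- More than two edges are kept over cofinally many bases. -/
def Big (E : C → C → Prop) : Prop := ∀ z, ∃ b, Red z b ∧ Gd ev b ∧ 2 < Wt ev b E

theorem big_teq : Big ev TEq := by
  intro z
  obtain ⟨c, hc⟩ := base ev
  obtain ⟨b1, b2⟩ := hc (join z c) (red_right z c)
  refine ⟨join z c, red_left z c, ⟨b1, b2⟩, ?_⟩
  generalize join z c = b at b1 b2
  have hxy : ∀ R, Red (xx b R) (yy ev b R) := fun R => red_left _ _
  have a1 : ∀ᵐ R ∂mu, Red (yy ev b R) (xx b R) := (ae_fin ev b).mono b2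
  have e : ∀ g, mu {R | TEq (yy ev b (T g R)) (yy ev b R)} = 1 := fun g => by
    rw [← measure_univ (μ := mu)]
    refine measure_congr (eventuallyEq_univ.2 ?_)
    filter_upwards [a1, (mp_T g).quasiMeasurePreserving.ae a1] with R h1 h2
    refine TEq.mk' (h2.trans ((b1 g R).trans (hxy R))) (h1.trans (Red.trans ?_ (hxy _)))
    have := b1 g⁻¹ (T g R)
    rwa [T_T, inv_mul_cancel, T_one] at this
  simp only [Wt, e]
  norm_num

theorem Big.step {E : C → C → Prop} (h : Big ev E) {F : ℕ → C → C → Prop}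
    (hm : ∀ n x y, F n x y → F (n + 1) x y) (hu : ∀ x y, E x y ↔ ∃ n, F n x y) :
    ∃ n, Big ev (F n) := by
  by_contra hc
  simp only [Big, not_exists, not_forall, not_and, not_lt] at hc
  choose z hz using hc
  obtain ⟨b, h1, h2, h3⟩ := h (psi z)
  have hlim : ∀ g, Tendsto (fun N => mu {R | F N (yy ev b (T g R)) (yy ev b R)}) atTop
      (𝓝 (mu {R | E (yy ev b (T g R)) (yy ev b R)})) := by
    intro g
    have t := tendsto_measure_iUnion_atTop (μ := mu)
      (s := fun N => {R | F N (yy ev b (T g R)) (yy ev b R)})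
      (monotone_nat_of_le_succ fun n R hR => hm n _ _ hR)
    have e : (⋃ N, {R | F N (yy ev b (T g R)) (yy ev b R)}) =
        {R | E (yy ev b (T g R)) (yy ev b R)} := by
      ext R
      simp [hu]
    rwa [e] at t
  exact absurd (le_of_tendsto' (tendsto_finsetSum Finset.univ fun (s : Bool × Bool) _ =>
    hlim (FreeGroup.mk [s])) fun N => hz N b ((red_psi z N).trans h1) h2) (not_le.2 h3)

theorem wt_le {Tot : ℕ → Set C} (e1 : ∀ e, Measurable (ev e))
    (e3 : ∀ e, ∀ x ∈ Tot e, ContinuousAt (ev e) x)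
    (e5 : ∀ x y, Red y x → ∃ e, x ∈ Tot e ∧ ev e x = y) {E : C → C → Prop} (hE : Equivalence E)
    (hM : MeasurableSet {p : C × C | E p.1 p.2}) {b : C} (hb : Gd ev b)
    (hL : ∀ x, Red b x → Lst E x) : Wt ev b E ≤ 2 := by
  have hym : Measurable (yy ev b) := (continuous_yy ev b).measurable
  have a1 : ∀ᵐ R ∂mu, Red (yy ev b R) (xx b R) := (ae_fin ev b).mono hb.2
  have a2 : ∀ᵐ R ∂mu, ∀ e, R ∈ Tt (ev e) b → (Lis ev (ev e) b R).Finite := by
    refine ae_all_iff.2 fun e => ?_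
    filter_upwards [measure_eq_zero_iff_ae_notMem.1 (diag ev e1 b e)] with R hR hT
    by_contra hn
    exact hR ⟨hT, hn⟩
  refine mass (yy ev b) hE (fun g => ((hym.comp (measurable_T g)).prodMk hym) hM) ?_
  filter_upwards [a1, a2] with R h1 h2
  obtain ⟨w, hw, hw'⟩ := hL (yy ev b R) ((red_left _ _).trans (red_left (xx b R) _))
  obtain ⟨e, he, rfl⟩ := e5 _ _ (hw.trans h1)
  exact (h2 e (fin_tt (e3 e _ he))).subset fun g hg => hw' _ (hE.symm hg)

theorem meas_Lst {E : C → C → Prop} (hM : MeasurableSet {p : C × C | E p.1 p.2})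
    (hT : ∀ x y, E x y → TEq x y) : MeasurableSet {x | Lst E x} := by
  obtain ⟨ev, Tot, e1, e2, -, e4, e5⟩ := exists_ev
  have : {x | Lst E x} = {x | ∃ e, x ∈ Tot e ∧ ∀ e', x ∈ Tot e' → E x (ev e' x) →
      ∃ k, col k (ev e x) = ev e' x} := by
    ext x
    constructor
    · rintro ⟨w, hw, hw'⟩
      obtain ⟨e, he, rfl⟩ := e5 _ _ hw
      exact ⟨e, he, fun e' _ hE => hw' _ hE⟩
    · rintro ⟨e, he, he'⟩
      refine ⟨ev e x, e4 e x he, fun y hy => ?_⟩
      obtain ⟨e', h1, rfl⟩ := e5 x y (hT _ _ hy).ge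
      exact he' e' h1 hy
  rw [this]
  refine measurableSet_setOfPred.2 (Measurable.exists fun e => (e2 e).mem.and
    (Measurable.forall fun e' => (e2 e').mem.imp (Measurable.imp
      (measurableSet_setOfPred.1 ((measurable_id.prodMk (e1 e')) hM)) (Measurable.exists fun k =>
        measurableSet_setOfPred.1 (measurableSet_eq_fun ?_ (e1 e'))))))
  exact (continuous_comp (Nat.pair k)).measurable.comp (e1 e)

theorem main_list {E : ℕ → C → C → Prop} (h3 : ∀ n x y, E n x y → E (n + 1) x y)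
    (h4 : ∀ x y, TEq x y ↔ ∃ n, E n x y) :
    ∃ i, ∀ F : ℕ → C → C → Prop, (∀ m, Equivalence (F m)) →
      (∀ m, MeasurableSet {p : C × C | F m p.1 p.2}) → (∀ m x y, F m x y → F (m + 1) x y) →
      (∀ x y, E i x y ↔ ∃ m, F m x y) →
      ∃ t m, Pointed t ∧ ∀ x : C, (∀ n, t (pre x n) = true) → ¬ Lst (F m) x := by
  obtain ⟨ev, Tot, e1, -, e3, -, e5⟩ := exists_ev
  obtain ⟨i, hi⟩ := (big_teq ev).step ev h3 h4
  refine ⟨i, fun F f1 f2 f3 f4 => ?_⟩
  obtain ⟨m, hm⟩ := hi.step ev f3 f4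
  obtain ⟨t, ht, hu⟩ := pointed_of_cofinal (A := {x | Lst (F m) x}ᶜ)
    (meas_Lst (f2 m) fun x y hxy => (h4 x y).2 ⟨i, (f4 x y).2 ⟨m, hxy⟩⟩).compl (fun z => by
      obtain ⟨b, h1, h2, h5⟩ := hm z
      by_contra hc
      refine absurd (wt_le ev e1 e3 e5 (f1 m) (f2 m) h2 fun x hx => ?_) (not_le.2 h5)
      by_contra hn
      exact hc ⟨x, hn, h1.trans hx⟩)
  exact ⟨t, m, ht, hu⟩

end Pool.Agent.Lib.MP_18f39a_lc.Ls
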