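import Pool.Agent.Lib.MP_18f39a_lc.Ls.Defs

set_option autoImplicit false

open Set Topology Filter MeasureTheory

namespace Pool.Agent.Lib.MP_18f39a_lc.Ls

open Pool.Agent.Lib.MP_18f39a_lc

/-- The shift preserves the coin measure (`Measure.map_infinitePi_infinitePi_of_inj`). -/
theorem mp_T (g : G) : MeasurePreserving (T g) mu mu := by
  refine ⟨measurable_T g, ?_⟩
  have hf : Function.Injective fun p : G × ℕ => (p.1 * g, p.2) := fun p q h => by
    simp only [Prod.mk.injEq, mul_left_inj] at h
    exact Prod.ext h.1 h.2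
  exact Measure.map_infinitePi_infinitePi_of_inj (P := fun _ : G × ℕ => coin) hf

theorem DepOn.eq_pre {I : Finset (G × ℕ)} {D : Set Om} (h : DepOn I D) :
    D = (fun (R : Om) (i : I) => R i) ⁻¹' ((fun (R : Om) (i : I) => R i) '' D) := by
  refine Subset.antisymm (subset_preimage_image _ _) ?_
  rintro R ⟨R', hR', e⟩
  exact h R' R (fun i hi => congrFun e ⟨i, hi⟩) hR'

/-- `D` is the preimage of a subset of the finite type `I → Bool`. -/
theorem DepOn.meas {I : Finset (G × ℕ)} {D : Set Om} (h : DepOn I D) : MeasurableSet D := by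
  rw [h.eq_pre]
  exact (measurable_pi_lambda _ fun i => measurable_pi_apply _) (Set.toFinite _).measurableSet

/-- `iIndepFun_infinitePi`, `iIndepFun.indepFun_finset`. -/
theorem DepOn.ind {I J : Finset (G × ℕ)} {D D' : Set Om} (h : DepOn I D) (h' : DepOn J D')
    (hd : Disjoint I J) : mu (D ∩ D') = mu D * mu D' := by
  have hi := (ProbabilityTheory.iIndepFun_infinitePi (P := fun _ : G × ℕ => coin)
    (X := fun _ v => v) fun _ => measurable_id).indepFun_finset I J hd
      fun i => measurable_pi_apply i
  have key := hi.measure_inter_preimage_eq_mul ((fun (R : Om) (i : I) => R i) '' D)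
    ((fun (R : Om) (i : J) => R i) '' D') (Set.toFinite _).measurableSet
    (Set.toFinite _).measurableSet
  rw [← h.eq_pre, ← h'.eq_pre] at key
  exact key

/-- Approximate `A` by a cylinder (`exists_measure_symmDiff_lt_of_generateFrom_isSetRing`,
`isSetRing_measurableCylinders`, `generateFrom_measurableCylinders`). -/
theorem mix {A : Set Om} (hA : MeasurableSet A) {ε : ℝ} (hε : 0 < ε) :
    ∃ I : Finset (G × ℕ), ∀ (J : Finset (G × ℕ)) (D : Set Om), Disjoint I J → DepOn J D →
      mu.real (A ∩ D) ≤ mu.real A * mu.real D + ε := by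
  obtain ⟨t, ht, hlt⟩ := exists_measure_symmDiff_lt_of_generateFrom_isSetRing (μ := mu)
    (isSetRing_measurableCylinders (α := fun _ : G × ℕ => Bool))
    ⟨{univ}, countable_singleton _, singleton_subset_iff.2 (univ_mem_measurableCylinders _), by simp⟩
    generateFrom_measurableCylinders.symm hA (ENNReal.ofReal_pos.2 (half_pos hε))
  obtain ⟨I, S, -, rfl⟩ := (mem_measurableCylinders _).1 ht
  have hI : DepOn I (cylinder I S) := fun R R' e hR => by
    rw [mem_cylinder] at hR ⊢
    have : I.restrict R' = I.restrict R := funext fun i => (e i i.2).symm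
    rwa [this]
  refine ⟨I, fun J D hd hD => ?_⟩
  have h0 : mu.real (symmDiff (cylinder I S) A) ≤ ε / 2 :=
    ENNReal.toReal_le_of_le_ofReal (half_pos hε).le hlt.le
  have h1 : mu.real (cylinder I S ∩ D) = mu.real (cylinder I S) * mu.real D := by
    simp only [Measure.real, hI.ind hD hd, ENNReal.toReal_mul]
  have h2 : mu.real (A ∩ D) ≤ mu.real (cylinder I S ∩ D) + mu.real (symmDiff (cylinder I S) A) := by
    refine (measureReal_mono ?_).trans (measureReal_union_le _ _)
    rintro R ⟨ha, hd⟩
    by_cases hc : R ∈ cylinder I S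
    · exact Or.inl ⟨hc, hd⟩
    · exact Or.inr (Or.inr ⟨ha, hc⟩)
  have h3 : mu.real (cylinder I S) ≤ mu.real A + mu.real (symmDiff (cylinder I S) A) := by
    refine (measureReal_mono ?_).trans (measureReal_union_le _ _)
    intro R hc
    by_cases ha : R ∈ A
    · exact Or.inl ha
    · exact Or.inr (Or.inl ⟨hc, ha⟩)
  have h4 : mu.real D ≤ 1 := measureReal_le_one
  have h5 : 0 ≤ mu.real D := measureReal_nonneg
  nlinarith

theorem pos_inj (j a : ℕ) : Function.Injective (pos j a) := fun l l' h => by
  simp only [pos, Nat.pair_eq_pair, true_and] at h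
  exact h

theorem act_eq (j a : ℕ) : {R | act j a R} =
    Set.pi (((Finset.range (j + 1)).image fun l => ((1 : G), pos j a l) : Finset (G × ℕ)) :
      Set (G × ℕ)) fun _ => {false} := by
  ext R
  simp [act]

/-- `Measure.infinitePi_pi`, `coin_single`; `pos j a` is injective. -/
theorem mu_act (j a : ℕ) : mu {R | act j a R} = 2⁻¹ ^ (j + 1) := by
  rw [act_eq, mu, Measure.infinitePi_pi _ fun _ _ => measurableSet_singleton _]
  simp only [coin_single, Finset.prod_const]
  rw [Finset.card_image_of_injective _ fun l l' h => pos_inj j a (Prod.mk.inj h).2, Finset.card_range]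

theorem meas_act (j a : ℕ) : MeasurableSet {R | act j a R} := by
  rw [act_eq]
  exact MeasurableSet.pi (Finset.countable_toSet _) fun _ _ => measurableSet_singleton _

/-- No vertex of `F` is active. -/
def NoAct (F : Finset G) (j a : ℕ) : Set Om := {R | ∀ g ∈ F, ¬ act j a (T g R)}

theorem depOn_noAct (F : Finset G) (j a : ℕ) : DepOn (blk F j a) (NoAct F j a) := by
  intro R R' e hR g hg h
  refine hR g hg fun l hl => ?_
  have h1 := h l hl
  simp only [T, one_mul] at h1 ⊢
  rw [e _ (Finset.mem_product.2 ⟨hg, Finset.mem_image_of_mem _ (Finset.mem_range.2 (by omega))⟩), h1]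

/-- Induction on `F` with `DepOn.ind`, `mp_T`, `mu_act`. -/
theorem mu_noAct (F : Finset G) (j a : ℕ) :
    mu.real (NoAct F j a) = (1 - (1 / 2 : ℝ) ^ (j + 1)) ^ F.card := by
  classical
  induction F using Finset.induction_on with
  | empty => simp [NoAct]
  | insert g F hg ih =>
    have e1 : NoAct (insert g F) j a = NoAct {g} j a ∩ NoAct F j a := by
      ext R
      simp [NoAct]
    have e2 : NoAct {g} j a = T g ⁻¹' {R | act j a R}ᶜ := by
      ext R
      simp [NoAct]
    have e3 : mu.real (NoAct {g} j a) = 1 - (1 / 2 : ℝ) ^ (j + 1) := by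
      rw [e2, (mp_T g).measureReal_preimage (meas_act j a).compl.nullMeasurableSet,
        probReal_compl_eq_one_sub (meas_act j a), Measure.real, mu_act]
      simp
    have hd : Disjoint (blk {g} j a) (blk F j a) := by
      unfold blk
      exact Finset.disjoint_product.2 (Or.inl (Finset.disjoint_singleton_left.2 hg))
    have e4 := (depOn_noAct {g} j a).ind (depOn_noAct F j a) hd
    rw [e1, Measure.real, e4, ENNReal.toReal_mul, Finset.card_insert_of_notMem hg, pow_succ', ← ih,
      ← e3]
    rfl

/-- `a ≤ pos j a l`, so late blocks miss a finite set of coordinates. -/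
theorem mix_noAct {A : Set Om} (hA : MeasurableSet A) (F : Finset G) (j : ℕ) {ε : ℝ}
    (hε : 0 < ε) : ∃ a0, ∀ a, a0 ≤ a → mu.real (A ∩ NoAct F j a) ≤
      mu.real A * (1 - (1 / 2 : ℝ) ^ (j + 1)) ^ F.card + ε := by
  obtain ⟨I, hI⟩ := mix hA hε
  refine ⟨I.sup Prod.snd + 1, fun a ha => ?_⟩
  rw [← mu_noAct F j a]
  refine hI _ _ (Finset.disjoint_left.2 fun p hp hq => ?_) (depOn_noAct F j a)
  obtain ⟨l, -, hl⟩ := Finset.mem_image.1 (Finset.mem_product.1 hq).2
  have h1 : p.2 ≤ I.sup Prod.snd := Finset.le_sup (f := Prod.snd) hp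
  have h2 : a ≤ pos j a l := (Nat.left_le_pair a l).trans (Nat.right_le_pair _ _)
  omega

end Pool.Agent.Lib.MP_18f39a_lc.Ls
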