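import Pool.Agent.Lib.MP_18f39a_lc.Ls.Ind

set_option autoImplicit false

open Set Topology Filter MeasureTheory

namespace Pool.Agent.Lib.MP_18f39a_lc.Ls

open Pool.Agent.Lib.MP_18f39a_lc

open Classical in
/-- At most `2 |F|` directed edges of the Cayley graph lie in `F`
(`FreeGroup.startsWith_mk_mul`, `FreeGroup.startsWith.disjoint_iff_ne`). -/
theorem iso (F : Finset G) :
    ((F ×ˢ (Finset.univ : Finset (Bool × Bool))).filter
      fun p => FreeGroup.mk [p.2] * p.1 ∈ F).card ≤ 2 * F.card := by
  have e : ∀ {g : G} {s t}, g ∈ FreeGroup.startsWith s → g ∈ FreeGroup.startsWith t → s = t :=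
    fun a b => Option.some.inj (a.symm.trans b)
  rw [← Finset.card_filter_add_card_filter_not
    (fun p : G × Bool × Bool => p.1 ∈ FreeGroup.startsWith (p.2.1, !p.2.2)), two_mul]
  refine add_le_add (Finset.card_le_card_of_injOn Prod.fst (fun p hp => ?_) fun p hp q hq h => ?_)
    (Finset.card_le_card_of_injOn (fun p => FreeGroup.mk [p.2] * p.1) (fun p hp => ?_)
      fun p hp q hq h => ?_)
  · exact (Finset.mem_product.1 (Finset.mem_filter.1 (Finset.mem_filter.1 hp).1).1).1
  · have := e (Finset.mem_filter.1 hp).2 (h ▸ (Finset.mem_filter.1 hq).2)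
    simp only [Prod.mk.injEq, Bool.not_inj_iff] at this
    exact Prod.ext h (Prod.ext this.1 this.2)
  · exact (Finset.mem_filter.1 (Finset.mem_filter.1 hp).1).2
  · simp only at h
    have := e (FreeGroup.startsWith_mk_mul _ (Finset.mem_filter.1 hp).2)
      (h ▸ FreeGroup.startsWith_mk_mul _ (Finset.mem_filter.1 hq).2)
    rw [this] at h
    exact Prod.ext (mul_left_cancel h) this

/-- Mass transport: finite classes keep at most two of the four edges at the root. -/
theorem mass {X : Type} (y : Om → X) {E : X → X → Prop} (hE : Equivalence E)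
    (hm : ∀ g, MeasurableSet {R | E (y (T g R)) (y R)})
    (hf : ∀ᵐ R ∂mu, {g | E (y (T g R)) (y R)}.Finite) :
    ∑ s : Bool × Bool, mu {R | E (y (T (FreeGroup.mk [s]) R)) (y R)} ≤ 2 := by
  classical
  let i : G → Om → ENNReal := fun g R => if E (y (T g R)) (y R) then 1 else 0
  have mi : ∀ g, Measurable (i g) := fun g => Measurable.ite (hm g) measurable_const measurable_const
  let f : G → Om → ENNReal := fun g R =>
    i g R * ((∑ s : Bool × Bool, i (FreeGroup.mk [s]) R) * (∑' h, i h R)⁻¹)
  have mf : ∀ g, Measurable (f g) := fun g => (mi g).mul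
    ((Finset.measurable_sum _ fun s _ => mi _).mul (Measurable.tsum mi).inv)
  have hc : ∀ R (h : {g | E (y (T g R)) (y R)}.Finite) (u : G → ENNReal),
      ∑' g, i g R * u g = ∑ g ∈ h.toFinset, u g := fun R h u => by
    rw [tsum_eq_sum (s := h.toFinset) fun g hg => by
      simp [i, show ¬ E (y (T g R)) (y R) by simpa using hg]]
    exact Finset.sum_congr rfl fun g hg => by
      simp [i, show E (y (T g R)) (y R) by simpa using hg]
  have hc' : ∀ R (h : {g | E (y (T g R)) (y R)}.Finite), ∑' g, i g R = h.toFinset.card :=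
    fun R h => by simpa using hc R h fun _ => 1
  have h1 : ∀ g R, f g (T g⁻¹ R) = i g⁻¹ R *
      ((∑ s : Bool × Bool, i (FreeGroup.mk [s] * g⁻¹) R) * (∑' h, i h R)⁻¹) := fun g R => by
    by_cases k : E (y (T g⁻¹ R)) (y R)
    · have e : ∀ h, i h (T g⁻¹ R) = i (h * g⁻¹) R := fun h => by
        simp only [i, T_T]
        exact if_congr ⟨fun a => hE.trans a k, fun a => hE.trans a (hE.symm k)⟩ rfl rfl
      simp only [f, e]
      rw [show ∑' h, i (h * g⁻¹) R = ∑' h, i h R from (Equiv.mulRight g⁻¹).tsum_eq fun h => i h R]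
      simp [i, T_one, k, hE.refl]
    · have k' : ¬ E (y R) (y (T g⁻¹ R)) := fun a => k (hE.symm a)
      simp [f, i, T_T, T_one, k, k']
  calc _ = ∫⁻ R, ∑ s : Bool × Bool, i (FreeGroup.mk [s]) R ∂mu := by
        rw [lintegral_finsetSum _ fun s _ => mi _]
        exact Finset.sum_congr rfl fun s _ => (lintegral_indicator_one (hm _)).symm
    _ = ∫⁻ R, ∑' g, f g R ∂mu := by
        refine lintegral_congr_ae (hf.mono fun R h => ?_)
        have h0 : (h.toFinset.card : ENNReal) ≠ 0 := Nat.cast_ne_zero.2
          (Finset.card_pos.2 ⟨1, by simpa [T_one] using hE.refl _⟩).ne'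
        simp only [f]
        rw [ENNReal.tsum_mul_right, hc' R h, mul_left_comm,
          ENNReal.mul_inv_cancel h0 (ENNReal.natCast_ne_top _), mul_one]
    _ = ∫⁻ R, ∑' g, f g (T g⁻¹ R) ∂mu := by
        rw [lintegral_tsum fun g => (mf g).aemeasurable,
          lintegral_tsum (f := fun g R => f g (T g⁻¹ R))
            fun g => ((mf g).comp (measurable_T _)).aemeasurable]
        exact tsum_congr fun g => ((mp_T g⁻¹).lintegral_comp (mf g)).symm
    _ ≤ ∫⁻ _, 2 ∂mu := by
        refine lintegral_mono_ae (hf.mono fun R h => ?_)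
        simp only [h1]
        refine ((Equiv.inv G).tsum_eq fun g => i g R *
          ((∑ s : Bool × Bool, i (FreeGroup.mk [s] * g) R) * (∑' h, i h R)⁻¹)).trans_le ?_
        rw [hc R h, hc' R h, ← Finset.sum_mul,
          ← Finset.sum_product' (f := fun g s => i (FreeGroup.mk [s] * g) R)]
        have := (Nat.cast_le (α := ENNReal)).2 (iso h.toFinset)
        rw [Finset.card_filter] at this
        push_cast at this
        simp only [Set.Finite.mem_toFinset, mem_ofPred_eq] at this
        refine (mul_le_mul_left this _).trans ?_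
        rw [mul_assoc]
        exact mul_le_of_le_one_right' (ENNReal.mul_inv_le_one _)
    _ = 2 := by simp

end Pool.Agent.Lib.MP_18f39a_lc.Ls
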