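import Pool.Agent.Lib.MP_18f39a_lc.Ls.Ind

set_option autoImplicit false

open Set Topology Filter MeasureTheory

namespace Pool.Agent.Lib.MP_18f39a_lc.Ls

open Pool.Agent.Lib.MP_18f39a_lc

variable (ev : ℕ → C → C)

theorem pre_mono {b b' : C} {s s' : ℕ} (h : pre b s = pre b' s) (hs : s' ≤ s) :
    pre b s' = pre b' s' :=
  pre_eq_iff.2 fun i hi => pre_eq_iff.1 h i (lt_of_lt_of_le hi hs)

theorem pre_xx {b b' : C} {s : ℕ} (h : pre b s = pre b' s) (R : Om) :
    pre (xx b R) s = pre (xx b' R) s := by
  refine pre_eq_iff.2 fun i hi => ?_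
  simp only [xx, join]
  split_ifs
  · exact pre_eq_iff.1 h _ (by omega)
  · rfl

theorem Cv.congr {f : C → C} {s N : ℕ} {x x' : C} (h : Cv f s N x) (e : pre x' s = pre x s) :
    Cv f s N x' :=
  fun n hn y hy => (h n hn y (hy.trans e)).trans (h n hn x' e).symm

theorem Cv.mono {f : C → C} {s s' N N' : ℕ} {x : C} (h : Cv f s N x) (hs : s ≤ s')
    (hN : N' ≤ N) : Cv f s' N' x :=
  fun n hn y hy => h n (lt_of_lt_of_le hn hN) y (pre_mono hy hs)

theorem Bs_congr (f : C → C) {b b' : C} {s : ℕ} (h : pre b s = pre b' s) (N : ℕ) :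
    Bs f b s N = Bs f b' s N := by
  ext R
  exact ⟨fun hR => Cv.congr hR (pre_xx h.symm R), fun hR => Cv.congr hR (pre_xx h R)⟩

theorem meas_Bs (f : C → C) (b : C) (s N : ℕ) : MeasurableSet (Bs f b s N) := by
  refine IsOpen.measurableSet ?_
  have : Bs f b s N = xx b ⁻¹' {x | Cv f s N x} := rfl
  rw [this]
  refine IsOpen.preimage (continuous_xx b) (isOpen_iff_mem_nhds.2 fun x hx => ?_)
  have hc : Continuous fun y : C => decide (pre y s = pre x s) :=
    continuous_pre s fun l => decide (l = pre x s)
  have ho : IsOpen ((fun y : C => decide (pre y s = pre x s)) ⁻¹' {true}) :=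
    (isOpen_discrete _).preimage hc
  filter_upwards [ho.mem_nhds (show x ∈ _ by simp)] with y hy
  exact Cv.congr hx (by simpa using hy)

theorem Q_congr {b b' : C} {s : ℕ} (h : pre b s = pre b' s) (j a : ℕ) :
    Q ev b j a s ↔ Q ev b' j a s := by
  unfold Q
  rw [Bs_congr _ h]

theorem st_congr {b b' : C} {t : ℕ} (h : pre b t = pre b' t) (j : ℕ) :
    st ev b j t = st ev b' j t := by
  induction t with
  | zero => rfl
  | succ t ih =>
    have h' := pre_mono h (Nat.le_succ t)
    have e := ih h'
    by_cases hq : Q ev b j (st ev b j t) t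
    · have hq' : Q ev b' j (st ev b' j t) t := e ▸ (Q_congr ev h' _ _).1 hq
      simp only [st, hq, hq', if_true]
    · have hq' : ¬ Q ev b' j (st ev b' j t) t := fun x => hq (e ▸ (Q_congr ev h' _ _).2 x)
      rw [st, st, if_neg hq, if_neg hq', e]

theorem st_fail {b : C} {j a : ℕ} (h : Fail ev b j a) {t : ℕ} (ht : a ≤ t) : st ev b j t = a := by
  induction t, ht using Nat.le_induction with
  | base => exact h.1
  | succ t _ ih => simp only [st, ih, h.2 t, if_false]

theorem fail_unique {b : C} {j a a' : ℕ} (h : Fail ev b j a) (h' : Fail ev b j a') : a = a' := by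
  rcases le_total a a' with e | e
  · exact (st_fail ev h e).symm.trans h'.1
  · exact h.1.symm.trans (st_fail ev h' e)

theorem st_step (b : C) (j t : ℕ) {u : ℕ} (hu : t ≤ u) :
    st ev b j u = st ev b j t ∨ ∃ a, t ≤ a ∧ st ev b j a = a := by
  induction u, hu using Nat.le_induction with
  | base => exact Or.inl rfl
  | succ u hu ih =>
    rcases ih with ih | ih
    · by_cases hq : Q ev b j (st ev b j u) u
      · exact Or.inr ⟨u + 1, by omega, by simp only [st, hq, if_true]⟩
      · left
        rw [← ih]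
        simp only [st, hq, if_false]
    · exact Or.inr ih

theorem arm_inf {b : C} {j : ℕ} (h : ∀ a, ∀ᶠ s in atTop, Q ev b j a s) (t : ℕ) :
    ∃ a, t ≤ a ∧ st ev b j a = a := by
  obtain ⟨u, hq, hu⟩ := ((h (st ev b j t)).and (eventually_ge_atTop t)).exists
  rcases st_step ev b j t hu with e | e
  · rw [← e] at hq
    exact ⟨u + 1, by omega, by simp only [st, hq, if_true]⟩
  · exact e

/-- First Borel-Cantelli lemma with `mu_act`, `fail_unique`. -/
theorem ae_fin (b : C) :
    ∀ᵐ R ∂mu, {p : ℕ × ℕ | Fail ev b p.1 p.2 ∧ act p.1 p.2 R}.Finite := by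
  classical
  let fa : ℕ → ℕ := fun j => if h : ∃ a, Fail ev b j a then h.choose else 0
  have hfa : ∀ j a, Fail ev b j a → fa j = a := fun j a h => by
    have h' : ∃ a, Fail ev b j a := ⟨a, h⟩
    simp only [fa, dif_pos h']
    exact fail_unique ev h'.choose_spec h
  have hs : ∑' j, mu {R | act j (fa j) R} ≠ ⊤ := by
    simp only [mu_act]
    refine ne_top_of_le_ne_top (b := ∑' j : ℕ, (2⁻¹ : ENNReal) ^ j) ?_ ?_
    · rw [ENNReal.tsum_geometric]
      simp
    · refine ENNReal.tsum_le_tsum fun j => ?_
      exact pow_le_pow_right_of_le_one' (by simp) (Nat.le_succ j)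
  filter_upwards [ae_finite_setOfPred_mem hs] with R hR
  refine (hR.image fun j => (j, fa j)).subset ?_
  rintro ⟨j, a⟩ ⟨h1, h2⟩
  have := hfa j a h1
  exact ⟨j, by simpa [this] using h2, by simp [this]⟩

theorem depOn_act (j a : ℕ) :
    DepOn (blk {1} j a) {R | act j a R} := by
  intro R R' h hR l hl
  rw [← h, hR l hl]
  simp only [blk, Finset.mem_product, Finset.mem_singleton, Finset.mem_image, Finset.mem_range,
    true_and]
  exact ⟨l, by omega, rfl⟩

theorem isClopen_act (j a : ℕ) : IsClopen {R | act j a R} := by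
  have : {R | act j a R} =
      ⋂ l ∈ Finset.range (j + 1), (fun R : Om => R (1, pos j a l)) ⁻¹' {false} := by
    ext R
    simp [act]
  rw [this]
  exact isClopen_biInter_finset fun l _ => (isClopen_discrete _).preimage (continuous_apply _)

theorem continuous_yy (b : C) : Continuous (yy ev b) := by
  classical
  refine Continuous.join' (continuous_xx b) (continuous_pi fun n => ?_)
  unfold hh
  by_cases hc : cst ev b n.unpair.1 n.unpair.2.unpair.1 n.unpair.2.unpair.2
  · simp only [hc, and_true]
    refine (IsLocallyConstant.iff_continuous _).1 ?_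
    refine (IsLocallyConstant.iff_isOpen_fiber).2 fun v => ?_
    cases v with
    | true =>
      have := (isClopen_act n.unpair.1 n.unpair.2.unpair.1).isOpen
      refine (congrArg IsOpen ?_).mp this
      ext R
      simp
    | false =>
      have := (isClopen_act n.unpair.1 n.unpair.2.unpair.1).compl.isOpen
      refine (congrArg IsOpen ?_).mp this
      ext R
      simp
  · simp only [hc, and_false, decide_false]
    exact continuous_const

end Pool.Agent.Lib.MP_18f39a_lc.Ls
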